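import Mathlib
import Pool.Agent.helper87.PI.Defs

set_option autoImplicit false

/-! Module pi:E4 of project PI (MP_93b131_co), by helper17. -/

namespace Pool.Agent.helper87.PI

open Finset

/-- pi:E4 -- a bipartition cutting half of the edges at every vertex -/
theorem maxcut (ι V : Type) [Fintype V] [DecidableEq V] [DecidableEq ι] (F : Finset ι)
    (s t : ι → V) (hst : ∀ i ∈ F, s i ≠ t i) :
    ∃ σ : V → Bool, ∀ v, (F.filter (fun i => s i = v ∨ t i = v)).card ≤
      2 * (F.filter (fun i => (s i = v ∨ t i = v) ∧ σ (s i) ≠ σ (t i))).card := by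
  obtain ⟨σ, hσ⟩ := Finite.exists_max
    (fun σ : V → Bool => (F.filter (fun i => σ (s i) ≠ σ (t i))).card)
  refine ⟨σ, fun v => ?_⟩
  -- flip `v`
  set σ' : V → Bool := Function.update σ v (!σ v) with hσ'
  have hmax : (F.filter (fun i => σ' (s i) ≠ σ' (t i))).card ≤
      (F.filter (fun i => σ (s i) ≠ σ (t i))).card := hσ σ'
  have hother : ∀ w, w ≠ v → σ' w = σ w := fun w hw => Function.update_of_ne hw _ _
  have hself : σ' v = !σ v := Function.update_self _ _ _
  -- decomposition of the cuts
  have h1 : (F.filter (fun i => σ (s i) ≠ σ (t i))).card =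
      (F.filter (fun i => (s i = v ∨ t i = v) ∧ σ (s i) ≠ σ (t i))).card +
      (F.filter (fun i => ¬ (s i = v ∨ t i = v) ∧ σ (s i) ≠ σ (t i))).card := by
    rw [← card_filter_add_card_filter_not (s := F.filter (fun i => σ (s i) ≠ σ (t i)))
      (fun i => s i = v ∨ t i = v), filter_filter, filter_filter]
    congr 2
    · ext i; simp only [mem_filter]; tauto
    · ext i; simp only [mem_filter]; tauto
  have h2 : (F.filter (fun i => σ' (s i) ≠ σ' (t i))).card =
      (F.filter (fun i => (s i = v ∨ t i = v) ∧ ¬ (σ (s i) ≠ σ (t i)))).card +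
      (F.filter (fun i => ¬ (s i = v ∨ t i = v) ∧ σ (s i) ≠ σ (t i))).card := by
    rw [← card_filter_add_card_filter_not (s := F.filter (fun i => σ' (s i) ≠ σ' (t i)))
      (fun i => s i = v ∨ t i = v), filter_filter, filter_filter]
    congr 2
    · apply filter_congr
      intro i hi
      have hne := hst i hi
      constructor
      · rintro ⟨h, hv⟩
        refine ⟨hv, ?_⟩
        rcases hv with hv | hv
        · rw [hv, hself, hother (t i) (fun h' => hne (hv.trans h'.symm))] at h
          rw [hv, not_ne_iff]
          cases hb : σ v <;> cases hc : σ (t i) <;> simp_all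
        · rw [hv, hself, hother (s i) (fun h' => hne (h'.trans hv.symm))] at h
          rw [hv, not_ne_iff]
          cases hb : σ v <;> cases hc : σ (s i) <;> simp_all
      · rintro ⟨hv, h⟩
        refine ⟨?_, hv⟩
        rw [not_ne_iff] at h
        rcases hv with hv | hv
        · rw [hv, hself, hother (t i) (fun h' => hne (hv.trans h'.symm)), ← h, hv]
          cases hb : σ v <;> simp_all
        · rw [hv, hself, hother (s i) (fun h' => hne (h'.trans hv.symm)), h, hv]
          cases hb : σ v <;> simp_all
    · apply filter_congr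
      intro i hi
      constructor
      · rintro ⟨h, hv⟩
        rw [not_or] at hv
        rw [hother _ hv.1, hother _ hv.2] at h
        exact ⟨fun h' => h'.elim hv.1 hv.2, h⟩
      · rintro ⟨hv, h⟩
        rw [not_or] at hv
        rw [hother _ hv.1, hother _ hv.2]
        exact ⟨h, fun h' => h'.elim hv.1 hv.2⟩
  have h3 : (F.filter (fun i => s i = v ∨ t i = v)).card =
      (F.filter (fun i => (s i = v ∨ t i = v) ∧ σ (s i) ≠ σ (t i))).card +
      (F.filter (fun i => (s i = v ∨ t i = v) ∧ ¬ (σ (s i) ≠ σ (t i)))).card := by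
    rw [← card_filter_add_card_filter_not (s := F.filter (fun i => s i = v ∨ t i = v))
      (fun i => σ (s i) ≠ σ (t i)), filter_filter, filter_filter]
  omega

end Pool.Agent.helper87.PI
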