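import Mathlib
import Pool.Agent.helper87.PI.Defs
import Pool.Agent.helper17.PI.E4
import Pool.Agent.helper9.PI.E3

set_option autoImplicit false

/-! Module pi:E5 of project PI (MP_93b131_co), by helper17. -/

namespace Pool.Agent.helper87.PI

open Finset

/-- the cut part of a multigraph -/
theorem E5_cut (N : ℕ) (J : ℕ)
    (hN : ∀ (X Y : Type) [Fintype X] [Fintype Y] [DecidableEq X] [DecidableEq Y]
      (E : Finset (X × Y)), (∀ x, dX E x < 2 ^ J) → (∀ y, dY E y < 2 ^ J) → Good E N)
    (ι V : Type) [Fintype V] [DecidableEq V] [DecidableEq ι] (F : Finset ι)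
    (s t : ι → V) (σ : V → Bool) (hσ : ∀ i ∈ F, σ (s i) ≠ σ (t i))
    (hdeg : ∀ v, (F.filter (fun i => s i = v ∨ t i = v)).card < 2 ^ J) :
    ∃ c : ι → ℕ, (∀ i ∈ F, ∀ j ∈ F, i ≠ j →
        (s i = s j ∨ s i = t j ∨ t i = s j ∨ t i = t j) → c i ≠ c j) ∧
      (univ.image (fun v => (F.filter (fun i => s i = v ∨ t i = v)).image c)).card ≤ N ^ J := by
  set a : ι → V := fun i => if σ (s i) = false then s i else t i with ha
  set b : ι → V := fun i => if σ (s i) = false then t i else s i with hb
  have hF : ∀ i ∈ F, ∀ v, (σ v = false → ((s i = v ∨ t i = v) ↔ a i = v)) ∧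
      (σ v = true → ((s i = v ∨ t i = v) ↔ b i = v)) := by
    intro i hi v
    have hne := hσ i hi
    by_cases hs : σ (s i) = false
    · have ht : σ (t i) = true := by
        cases h : σ (t i)
        · exact absurd (hs.trans h.symm) hne
        · rfl
      have ha' : a i = s i := by simp [ha, hs]
      have hb' : b i = t i := by simp [hb, hs]
      refine ⟨fun hv => ⟨fun h => ?_, fun h => Or.inl (ha' ▸ h)⟩,
        fun hv => ⟨fun h => ?_, fun h => Or.inr (hb' ▸ h)⟩⟩
      · rcases h with h | h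
        · rw [ha', h]
        · rw [h, hv] at ht; exact absurd ht (by decide)
      · rcases h with h | h
        · rw [h, hv] at hs; exact absurd hs (by decide)
        · rw [hb', h]
    · have hs' : σ (s i) = true := by simpa using hs
      have ht : σ (t i) = false := by
        cases h : σ (t i)
        · rfl
        · exact absurd (hs'.trans h.symm) hne
      have ha' : a i = t i := by simp [ha, hs]
      have hb' : b i = s i := by simp [hb, hs]
      refine ⟨fun hv => ⟨fun h => ?_, fun h => Or.inr (ha' ▸ h)⟩,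
        fun hv => ⟨fun h => ?_, fun h => Or.inl (hb' ▸ h)⟩⟩
      · rcases h with h | h
        · rw [h, hv] at hs'; exact absurd hs' (by decide)
        · rw [ha', h]
      · rcases h with h | h
        · rw [hb', h]
        · rw [h, hv] at ht; exact absurd ht (by decide)
  have hab : ∀ i, (a i = s i ∨ a i = t i) ∧ (b i = s i ∨ b i = t i) := by
    intro i
    by_cases hs : σ (s i) = false
    · exact ⟨Or.inl (by simp [ha, hs]), Or.inr (by simp [hb, hs])⟩
    · exact ⟨Or.inr (by simp [ha, hs]), Or.inl (by simp [hb, hs])⟩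
  obtain ⟨c, hc1, hc2⟩ := digits J N hN ι V V F a b
    (fun x => lt_of_le_of_lt (card_le_card (by
      intro i hi
      rw [mem_filter] at hi ⊢
      refine ⟨hi.1, ?_⟩
      rcases (hab i).1 with h | h
      · left; rw [← h]; exact hi.2
      · right; rw [← h]; exact hi.2)) (hdeg x))
    (fun x => lt_of_le_of_lt (card_le_card (by
      intro i hi
      rw [mem_filter] at hi ⊢
      refine ⟨hi.1, ?_⟩
      rcases (hab i).2 with h | h
      · left; rw [← h]; exact hi.2
      · right; rw [← h]; exact hi.2)) (hdeg x))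
  refine ⟨c, ?_, ?_⟩
  · intro i hi j hj hij h
    apply hc1 i hi j hj hij
    -- a common vertex
    obtain ⟨v, hvi, hvj⟩ : ∃ v, (s i = v ∨ t i = v) ∧ (s j = v ∨ t j = v) := by
      rcases h with h | h | h | h
      · exact ⟨s i, Or.inl rfl, Or.inl h.symm⟩
      · exact ⟨s i, Or.inl rfl, Or.inr h.symm⟩
      · exact ⟨t i, Or.inr rfl, Or.inl h.symm⟩
      · exact ⟨t i, Or.inr rfl, Or.inr h.symm⟩
    cases hv : σ v
    · left
      rw [((hF i hi v).1 hv).mp hvi, ((hF j hj v).1 hv).mp hvj]
    · right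
      rw [((hF i hi v).2 hv).mp hvi, ((hF j hj v).2 hv).mp hvj]
  · refine le_trans (card_le_card ?_) hc2
    intro P hP
    obtain ⟨v, -, rfl⟩ := mem_image.mp hP
    rw [mem_union, mem_image, mem_image]
    cases hv : σ v
    · left
      refine ⟨v, mem_univ v, ?_⟩
      congr 1
      apply filter_congr
      intro i hi
      exact ((hF i hi v).1 hv).symm
    · right
      refine ⟨v, mem_univ v, ?_⟩
      congr 1
      apply filter_congr
      intro i hi
      exact ((hF i hi v).2 hv).symm

/-- the product of two colourings -/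
theorem E5_union (ι V : Type) [Fintype V] [DecidableEq V] [DecidableEq ι] (F F₁ F₂ : Finset ι)
    (hF : F = F₁ ∪ F₂) (hd : Disjoint F₁ F₂) (s t : ι → V) (c₁ c₂ : ι → ℕ) (M₁ M₂ : ℕ)
    (h₁ : ∀ i ∈ F₁, ∀ j ∈ F₁, i ≠ j →
        (s i = s j ∨ s i = t j ∨ t i = s j ∨ t i = t j) → c₁ i ≠ c₁ j)
    (h₂ : ∀ i ∈ F₂, ∀ j ∈ F₂, i ≠ j →
        (s i = s j ∨ s i = t j ∨ t i = s j ∨ t i = t j) → c₂ i ≠ c₂ j)
    (hM₁ : (univ.image (fun v => (F₁.filter (fun i => s i = v ∨ t i = v)).image c₁)).card ≤ M₁)
    (hM₂ : (univ.image (fun v => (F₂.filter (fun i => s i = v ∨ t i = v)).image c₂)).card ≤ M₂) :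
    ∃ c : ι → ℕ, (∀ i ∈ F, ∀ j ∈ F, i ≠ j →
        (s i = s j ∨ s i = t j ∨ t i = s j ∨ t i = t j) → c i ≠ c j) ∧
      (univ.image (fun v => (F.filter (fun i => s i = v ∨ t i = v)).image c)).card ≤
        M₁ * M₂ := by
  classical
  set c : ι → ℕ := fun i => if i ∈ F₁ then 2 * c₁ i else 2 * c₂ i + 1 with hc
  have hc1 : ∀ i ∈ F₁, c i = 2 * c₁ i := fun i hi => by simp [hc, hi]
  have hc2 : ∀ i ∈ F₂, c i = 2 * c₂ i + 1 := fun i hi => by
    have : i ∉ F₁ := fun h => (disjoint_left.mp hd) h hi
    simp [hc, this]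
  refine ⟨c, ?_, ?_⟩
  · intro i hi j hj hij h
    rw [hF, mem_union] at hi hj
    rcases hi with hi | hi <;> rcases hj with hj | hj
    · rw [hc1 i hi, hc1 j hj]
      have := h₁ i hi j hj hij h
      omega
    · rw [hc1 i hi, hc2 j hj]; omega
    · rw [hc2 i hi, hc1 j hj]; omega
    · rw [hc2 i hi, hc2 j hj]
      have := h₂ i hi j hj hij h
      omega
  · have key : ∀ v, (F.filter (fun i => s i = v ∨ t i = v)).image c =
        ((F₁.filter (fun i => s i = v ∨ t i = v)).image c₁).image (fun n => 2 * n) ∪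
        ((F₂.filter (fun i => s i = v ∨ t i = v)).image c₂).image (fun n => 2 * n + 1) := by
      intro v
      rw [hF, filter_union, image_union, image_image, image_image]
      congr 1
      · apply image_congr
        intro i hi
        have := (mem_filter.mp (mem_coe.mp hi)).1
        simpa using hc1 i this
      · apply image_congr
        intro i hi
        have := (mem_filter.mp (mem_coe.mp hi)).1
        simpa using hc2 i this
    set A := univ.image (fun v => (F₁.filter (fun i => s i = v ∨ t i = v)).image c₁) with hA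
    set B := univ.image (fun v => (F₂.filter (fun i => s i = v ∨ t i = v)).image c₂) with hB
    calc (univ.image (fun v => (F.filter (fun i => s i = v ∨ t i = v)).image c)).card
        ≤ ((A ×ˢ B).image (fun p => p.1.image (fun n => 2 * n) ∪
            p.2.image (fun n => 2 * n + 1))).card := by
          apply card_le_card
          intro P hP
          obtain ⟨v, -, rfl⟩ := mem_image.mp hP
          rw [mem_image]
          exact ⟨((F₁.filter (fun i => s i = v ∨ t i = v)).image c₁,
            (F₂.filter (fun i => s i = v ∨ t i = v)).image c₂),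
            mem_product.mpr ⟨mem_image_of_mem _ (mem_univ v), mem_image_of_mem _ (mem_univ v)⟩,
            (key v).symm⟩
      _ ≤ (A ×ˢ B).card := card_image_le
      _ = A.card * B.card := card_product _ _
      _ ≤ M₁ * M₂ := Nat.mul_le_mul hM₁ hM₂

/-- pi:E5 -- general multigraphs -/
theorem multi (N : ℕ → ℕ) (hN1 : ∀ J, 1 ≤ N J) (hmono : Monotone N)
    (hN : ∀ (J : ℕ) (X Y : Type) [Fintype X] [Fintype Y] [DecidableEq X] [DecidableEq Y]
      (E : Finset (X × Y)), (∀ x, dX E x < 2 ^ J) → (∀ y, dY E y < 2 ^ J) → Good E (N J))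
    (J : ℕ) (ι V : Type) [Fintype V] [DecidableEq V] [DecidableEq ι] (F : Finset ι)
    (s t : ι → V) (hst : ∀ i ∈ F, s i ≠ t i)
    (hdeg : ∀ v, (F.filter (fun i => s i = v ∨ t i = v)).card < 2 ^ J) :
    ∃ c : ι → ℕ, (∀ i ∈ F, ∀ j ∈ F, i ≠ j →
        (s i = s j ∨ s i = t j ∨ t i = s j ∨ t i = t j) → c i ≠ c j) ∧
      (univ.image (fun v => (F.filter (fun i => s i = v ∨ t i = v)).image c)).card ≤
        N J ^ (J ^ 2) := by
  induction J generalizing F with
  | zero =>
    have hFe : F = ∅ := by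
      rw [eq_empty_iff_forall_notMem]
      intro i hi
      have h := hdeg (s i)
      have : 0 < (F.filter (fun j => s j = s i ∨ t j = s i)).card :=
        card_pos.mpr ⟨i, mem_filter.mpr ⟨hi, Or.inl rfl⟩⟩
      rw [pow_zero] at h
      omega
    refine ⟨fun _ => 0, ?_, ?_⟩
    · rw [hFe]; simp
    · rw [hFe]
      simp only [filter_empty, image_empty]
      refine le_trans (card_le_card (t := {∅}) ?_) (by simp)
      intro P hP
      obtain ⟨v, -, rfl⟩ := mem_image.mp hP
      simp
  | succ J ih =>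
    obtain ⟨σ, hσ⟩ := maxcut ι V F s t hst
    set F₁ := F.filter (fun i => σ (s i) ≠ σ (t i)) with hF₁
    set F₂ := F.filter (fun i => ¬ (σ (s i) ≠ σ (t i))) with hF₂
    have hFU : F = F₁ ∪ F₂ := (filter_union_filter_not_eq _ _).symm
    have hdis : Disjoint F₁ F₂ := disjoint_filter_filter_not _ _ _
    have hdeg₁ : ∀ v, (F₁.filter (fun i => s i = v ∨ t i = v)).card < 2 ^ (J + 1) := fun v =>
      lt_of_le_of_lt (card_le_card (filter_subset_filter _ (filter_subset _ _))) (hdeg v)
    have hdeg₂ : ∀ v, (F₂.filter (fun i => s i = v ∨ t i = v)).card < 2 ^ J := by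
      intro v
      have h1 := hσ v
      have h2 := hdeg v
      have h3 : (F.filter (fun i => s i = v ∨ t i = v)).card =
          (F.filter (fun i => (s i = v ∨ t i = v) ∧ σ (s i) ≠ σ (t i))).card +
          (F₂.filter (fun i => s i = v ∨ t i = v)).card := by
        rw [← card_filter_add_card_filter_not (s := F.filter (fun i => s i = v ∨ t i = v))
          (fun i => σ (s i) ≠ σ (t i)), filter_filter, filter_filter, hF₂, filter_filter]
        congr 2
        ext i; simp only [mem_filter]; tauto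
      have h4 : 2 ^ (J + 1) = 2 * 2 ^ J := by ring
      omega
    obtain ⟨c₁, hc₁, hM₁⟩ := E5_cut (N (J + 1)) (J + 1) (hN (J + 1)) ι V F₁ s t σ
      (fun i hi => (mem_filter.mp hi).2) hdeg₁
    obtain ⟨c₂, hc₂, hM₂⟩ := ih F₂ (fun i hi => hst i (mem_filter.mp hi).1) hdeg₂
    obtain ⟨c, hc, hM⟩ := E5_union ι V F F₁ F₂ hFU hdis s t c₁ c₂ _ _ hc₁ hc₂ hM₁ hM₂
    refine ⟨c, hc, hM.trans ?_⟩
    calc N (J + 1) ^ (J + 1) * N J ^ J ^ 2
        ≤ N (J + 1) ^ (J + 1) * N (J + 1) ^ J ^ 2 :=
          Nat.mul_le_mul_left _ (Nat.pow_le_pow_left (hmono (Nat.le_succ J)) _)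
      _ = N (J + 1) ^ (J + 1 + J ^ 2) := (pow_add _ _ _).symm
      _ ≤ N (J + 1) ^ ((J + 1) ^ 2) :=
          Nat.pow_le_pow_right (hN1 (J + 1)) (by ring_nf; omega)

end Pool.Agent.helper87.PI
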