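import Mathlib
import Pool.Agent.helper87.PI.Defs

set_option autoImplicit false

/-! Module pi:D7 of project PI (MP_93b131_co), by helper17. -/

namespace Pool.Agent.helper87.PI

open Finset

section block

variable {X Y : Type} [Fintype X] [Fintype Y] [DecidableEq X] [DecidableEq Y]

/-- edges at `x` whose right end has degree in `[2 ^ i, 2 ^ (i + 1))` -/
def D7_cl (F : Finset (X × Y)) (i : ℕ) (x : X) : Finset (X × Y) :=
  F.filter (fun e => e.1 = x ∧ 2 ^ i ≤ dY F e.2 ∧ dY F e.2 < 2 ^ (i + 1))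

theorem D7_dY_mono {G F : Finset (X × Y)} (h : G ⊆ F) (y : Y) : dY G y ≤ dY F y :=
  card_le_card (filter_subset_filter _ h)

theorem D7_dY_eq {G F : Finset (X × Y)} (h : G ⊆ F) (y : Y) (hy : ∀ e ∈ F, e.2 = y → e ∈ G) :
    dY G y = dY F y := by
  unfold dY
  congr 1
  ext e
  simp only [mem_filter]
  constructor
  · rintro ⟨h1, h2⟩; exact ⟨h h1, h2⟩
  · rintro ⟨h1, h2⟩; exact ⟨hy e h1 h2, h2⟩

theorem D7_dX_eq {G F : Finset (X × Y)} (h : G ⊆ F) (x : X) (hx : ∀ e ∈ F, e.1 = x → e ∈ G) :
    dX G x = dX F x := by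
  unfold dX
  congr 1
  ext e
  simp only [mem_filter]
  constructor
  · rintro ⟨h1, h2⟩; exact ⟨h h1, h2⟩
  · rintro ⟨h1, h2⟩; exact ⟨hx e h1 h2, h2⟩

theorem D7_step (F : Finset (X × Y)) (i θ : ℕ) : ∀ (n : ℕ) (G : Finset (X × Y)) (P : Finset X),
    (univ \ P).card = n → G ⊆ F → (∀ e ∈ F, 2 ^ (i + 1) ≤ dY F e.2 → e ∈ G) →
    (∀ e ∈ F, e.1 ∉ P → e ∈ G) → (∀ x, dX F x ≤ dX G x + θ) → (∀ x ∈ P, D7_cl G i x = ∅) →
    ∃ G' ⊆ F, (∀ e ∈ F, 2 ^ (i + 1) ≤ dY F e.2 → e ∈ G') ∧ (∀ x, dX F x ≤ dX G' x + θ) ∧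
      ∀ x, (D7_cl G' i x).card = 0 ∨ θ ≤ (D7_cl G' i x).card := by
  intro n
  induction n using Nat.strong_induction_on with
  | _ n ih =>
    intro G P hn hGF hhigh hkeep hdeg hP
    by_cases hall : ∀ x, (D7_cl G i x).card = 0 ∨ θ ≤ (D7_cl G i x).card
    · exact ⟨G, hGF, hhigh, hdeg, hall⟩
    push Not at hall
    obtain ⟨x, hx0, hxθ⟩ := hall
    have hxP : x ∉ P := by
      intro hx
      exact hx0 (by rw [hP x hx, card_empty])
    have hGs : G \ D7_cl G i x ⊆ G := sdiff_subset
    refine ih (univ \ insert x P).card ?_ (G \ D7_cl G i x) (insert x P) rfl (hGs.trans hGF)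
      ?_ ?_ ?_ ?_
    · rw [← hn]
      apply card_lt_card
      refine ⟨fun z hz => ?_, fun hsub => ?_⟩
      · simp only [mem_sdiff, mem_univ, true_and, mem_insert, not_or] at hz ⊢
        exact hz.2
      · have := hsub (show x ∈ univ \ P by simp [hxP])
        simp at this
    · intro e he hde
      have hG : e ∈ G := hhigh e he hde
      have heq : dY G e.2 = dY F e.2 :=
        D7_dY_eq hGF e.2 (fun e' he' h2 => hhigh e' he' (by rw [h2]; exact hde))
      rw [mem_sdiff]
      refine ⟨hG, fun hcl => ?_⟩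
      have := (mem_filter.mp hcl).2.2.2
      omega
    · intro e he h1
      rw [mem_insert, not_or] at h1
      rw [mem_sdiff]
      exact ⟨hkeep e he h1.2, fun hcl => h1.1 (mem_filter.mp hcl).2.1⟩
    · intro x'
      by_cases hx' : x' = x
      · subst hx'
        have h1 : dX G x' = dX F x' :=
          D7_dX_eq hGF x' (fun e he h2 => hkeep e he (by rw [h2]; exact hxP))
        have h2 : dX G x' ≤ dX (G \ D7_cl G i x') x' + (D7_cl G i x').card := by
          unfold dX
          refine le_trans (card_le_card ?_) (card_union_le _ _)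
          intro e he
          rw [mem_filter] at he
          rw [mem_union, mem_filter, mem_sdiff]
          by_cases hc : e ∈ D7_cl G i x'
          · right; exact hc
          · left; exact ⟨⟨he.1, hc⟩, he.2⟩
        omega
      · have h1 : dX (G \ D7_cl G i x) x' = dX G x' := by
          refine D7_dX_eq hGs x' (fun e he h2 => ?_)
          rw [mem_sdiff]
          refine ⟨he, fun hcl => hx' ?_⟩
          rw [← h2]
          exact (mem_filter.mp hcl).2.1
        rw [h1]
        exact hdeg x'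
    · intro x' hx'
      rw [eq_empty_iff_forall_notMem]
      intro e he
      have he' := mem_filter.mp he
      obtain ⟨heG1, hex, hlo, hhi⟩ := he'
      rw [mem_sdiff] at heG1
      have hcls : 2 ^ i ≤ dY G e.2 ∧ dY G e.2 < 2 ^ (i + 1) := by
        by_cases hrem : ∀ e' ∈ G, e'.2 = e.2 → e' ∈ G \ D7_cl G i x
        · rw [D7_dY_eq hGs e.2 hrem] at hlo hhi
          exact ⟨hlo, hhi⟩
        · push Not at hrem
          obtain ⟨e', he'G, he'2, he'n⟩ := hrem
          rw [mem_sdiff, not_and, not_not] at he'n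
          have := (mem_filter.mp (he'n he'G)).2.2
          rw [he'2] at this
          exact this
      have hmem : e ∈ D7_cl G i x' := mem_filter.mpr ⟨heG1.1, hex, hcls.1, hcls.2⟩
      rcases mem_insert.mp hx' with h | h
      · subst h
        exact heG1.2 hmem
      · rw [hP x' h] at hmem
        exact notMem_empty e hmem

theorem D7_main (E : Finset (X × Y)) (J θ : ℕ) (hJ : ∀ y, dY E y < 2 ^ J) : ∀ k ≤ J,
    ∃ F ⊆ E, (∀ x, dX E x ≤ dX F x + k * θ) ∧ ∀ i < J, J ≤ i + k → ∀ x,
      (D7_cl F i x).card = 0 ∨ θ ≤ (D7_cl F i x).card := by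
  intro k
  induction k with
  | zero =>
    intro _
    exact ⟨E, Subset.refl _, fun x => by simp, fun i hi h => by omega⟩
  | succ k ih =>
    intro hk
    obtain ⟨F, hFE, hdeg, hcl⟩ := ih (by omega)
    obtain ⟨G, hGF, hhigh, hdegG, hclG⟩ := D7_step F (J - k - 1) θ (univ \ (∅ : Finset X)).card F ∅
      rfl (Subset.refl _) (fun e he _ => he) (fun e he _ => he) (fun x => by omega)
      (fun x hx => absurd hx (notMem_empty x))
    refine ⟨G, hGF.trans hFE, fun x => ?_, fun i hi hik x => ?_⟩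
    · have h1 := hdeg x
      have h2 := hdegG x
      have : (k + 1) * θ = k * θ + θ := by ring
      omega
    · by_cases hi' : J ≤ i + k
      · -- a class processed before: nothing has changed
        have hle : (2 : ℕ) ^ (J - k - 1 + 1) ≤ 2 ^ i := Nat.pow_le_pow_right (by norm_num) (by omega)
        have heq : D7_cl G i x = D7_cl F i x := by
          ext e
          unfold D7_cl
          simp only [mem_filter]
          constructor
          · rintro ⟨h1, h2, h3, h4⟩
            have hF : 2 ^ (J - k - 1 + 1) ≤ dY F e.2 :=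
              hle.trans (h3.trans (D7_dY_mono hGF e.2))
            have heq : dY G e.2 = dY F e.2 :=
              D7_dY_eq hGF e.2 (fun e' he' h2' => hhigh e' he' (by rw [h2']; exact hF))
            rw [heq] at h3 h4
            exact ⟨hGF h1, h2, h3, h4⟩
          · rintro ⟨h1, h2, h3, h4⟩
            have hF : 2 ^ (J - k - 1 + 1) ≤ dY F e.2 := hle.trans h3
            have heq : dY G e.2 = dY F e.2 :=
              D7_dY_eq hGF e.2 (fun e' he' h2' => hhigh e' he' (by rw [h2']; exact hF))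
            rw [heq]
            exact ⟨hhigh e h1 hF, h2, h3, h4⟩
        rw [heq]
        exact hcl i hi hi' x
      · have : i = J - k - 1 := by omega
        rw [this]
        exact hclG x

/-- pi:D7 -- cleaning -/
theorem clean (E : Finset (X × Y)) (J θ : ℕ) (hJ : ∀ y, dY E y < 2 ^ J) :
    ∃ F ⊆ E, (∀ x, dX E x ≤ dX F x + J * θ) ∧ ∀ i < J, ∀ x,
      (F.filter (fun e => e.1 = x ∧ 2 ^ i ≤ dY F e.2 ∧ dY F e.2 < 2 ^ (i + 1))).card = 0 ∨
      θ ≤ (F.filter (fun e => e.1 = x ∧ 2 ^ i ≤ dY F e.2 ∧ dY F e.2 < 2 ^ (i + 1))).card := by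
  obtain ⟨F, hFE, hdeg, hcl⟩ := D7_main E J θ hJ J le_rfl
  exact ⟨F, hFE, hdeg, fun i hi x => hcl i hi (by omega) x⟩

end block

end Pool.Agent.helper87.PI
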